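import Pool.Agent.Lib.MP_2eed13_lc.LCA.Base

/-!
# CODE: every array can be coded by numbers, with a sticky acceptance flag
-/

set_option autoImplicit false

namespace Pool.Agent.Lib.MP_2eed13_lc.LCA.H27

open Finset

/-- digits of a number given by its digits -/
theorem dig_sum (q : ℕ) (N : ℕ) : ∀ (f : ℕ → ℕ), (∀ i, f i < q) → ∀ j < N,
    dig q (∑ i ∈ range N, f i * q ^ i) j = f j := by
  induction N with
  | zero => intro f _ j hj; omega
  | succ N ih =>
    intro f hf j hj
    have hq : 0 < q := lt_of_le_of_lt (Nat.zero_le _) (hf 0)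
    have h1 : ∑ i ∈ range (N + 1), f i * q ^ i =
        q * (∑ i ∈ range N, f (i + 1) * q ^ i) + f 0 := by
      rw [sum_range_succ', mul_sum]
      congr 1
      · refine sum_congr rfl fun i _ => ?_
        rw [pow_succ]; ring
      · simp
    rw [h1]
    unfold dig
    cases j with
    | zero =>
      rw [pow_zero, Nat.div_one, Nat.mul_add_mod, Nat.mod_eq_of_lt (hf 0)]
    | succ j =>
      have h2 := ih (fun i => f (i + 1)) (fun i => hf _) j (by omega)
      unfold dig at h2
      rw [pow_succ', ← Nat.div_div_eq_div_mul, Nat.mul_add_div hq, Nat.div_eq_of_lt (hf 0),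
        Nat.add_zero]
      exact h2

section

variable {Q : Type}

/-- codes -/
def enc (ι : Q → ℕ) : Option (Q × Bool) → ℕ
  | none => 0
  | some (q, fl) => 2 * (ι q + 1) + fl.toNat

theorem enc_inj {ι : Q → ℕ} (hι : Function.Injective ι) : Function.Injective (enc ι) := by
  intro x y h
  cases x with
  | none =>
    cases y with
    | none => rfl
    | some y => obtain ⟨q, fl⟩ := y; simp only [enc] at h; omega
  | some x =>
    obtain ⟨q, fl⟩ := x
    cases y with
    | none => simp only [enc] at h; omega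
    | some y =>
      obtain ⟨q', fl'⟩ := y
      simp only [enc] at h
      have h1 : fl.toNat ≤ 1 := Bool.toNat_le fl
      have h2 : fl'.toNat ≤ 1 := Bool.toNat_le fl'
      have h3 : ι q = ι q' := by omega
      have h4 : fl.toNat = fl'.toNat := by omega
      rw [hι h3]
      have h5 : fl = fl' := by
        revert h4
        cases fl <;> cases fl' <;> simp
      rw [h5]

open Classical in
/-- step with a sticky flag -/
noncomputable def stp (δ : Option Q → Q → Option Q → Q) (F : Set Q)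
    (l c r : Option (Q × Bool)) : Option (Q × Bool) :=
  c.map fun x => (δ (l.map Prod.fst) x.1 (r.map Prod.fst),
    x.2 || decide (δ (l.map Prod.fst) x.1 (r.map Prod.fst) ∈ F))

open Classical in
/-- configurations with a sticky flag -/
noncomputable def cfl (δ : Option Q → Q → Option Q → Q) (F : Set Q) (s : Q) (n : ℕ) :
    ℕ → ℤ → Option (Q × Bool)
  | 0, z => if 1 ≤ z ∧ z ≤ n then some (s, decide (s ∈ F)) else none
  | t + 1, z => stp δ F (cfl δ F s n t (z - 1)) (cfl δ F s n t z) (cfl δ F s n t (z + 1))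

theorem cfl_none (δ : Option Q → Q → Option Q → Q) (F : Set Q) (s : Q) (n t : ℕ) (z : ℤ) :
    cfl δ F s n t z = none ↔ ¬ (1 ≤ z ∧ z ≤ n) := by
  induction t with
  | zero => unfold cfl; split_ifs with h <;> simp [h]
  | succ t ih =>
    unfold cfl stp
    rw [Option.map_eq_none_iff]
    exact ih

theorem aStep_zero (δ : Option Q → Q → Option Q → Q) (s : Q) (n t : ℕ) :
    (aStep δ)^[t] (aInit s n) 0 = none := by
  induction t with
  | zero => simp [aInit]
  | succ t ih =>
    rw [Function.iterate_succ_apply']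
    generalize (aStep δ)^[t] (aInit s n) = c at ih ⊢
    unfold aStep
    rw [ih]
    rfl

theorem cfl_fst (δ : Option Q → Q → Option Q → Q) (F : Set Q) (s : Q) (n t : ℕ) :
    ∀ i : ℕ, (cfl δ F s n t (i : ℤ)).map Prod.fst = (aStep δ)^[t] (aInit s n) i := by
  induction t with
  | zero =>
    intro i
    unfold cfl
    simp only [Function.iterate_zero, id_eq, aInit]
    by_cases h : 1 ≤ i ∧ i ≤ n
    · rw [if_pos h, if_pos (by exact_mod_cast h)]; rfl
    · rw [if_neg h, if_neg (by exact_mod_cast h)]; rfl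
  | succ t ih =>
    intro i
    rcases Nat.eq_zero_or_pos i with rfl | hi
    · rw [aStep_zero, (cfl_none δ F s n (t + 1) _).2 (by simp)]
      rfl
    · rw [Function.iterate_succ_apply']
      have h1 : ((i : ℤ) - 1) = ((i - 1 : ℕ) : ℤ) := by omega
      have h2 : ((i : ℤ) + 1) = ((i + 1 : ℕ) : ℤ) := by omega
      show (stp δ F (cfl δ F s n t ((i : ℤ) - 1)) (cfl δ F s n t i)
        (cfl δ F s n t ((i : ℤ) + 1))).map Prod.fst = _
      generalize (aStep δ)^[t] (aInit s n) = c at ih ⊢
      unfold stp aStep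
      rw [h1, h2, ih (i - 1), ih (i + 1), ← ih i, Option.map_map, Option.map_map]
      rfl

theorem cfl_flag (δ : Option Q → Q → Option Q → Q) (F : Set Q) (s : Q) (n t : ℕ) (hn : 1 ≤ n) :
    ∃ x : Q × Bool, cfl δ F s n t 1 = some x ∧
      (x.2 = true ↔ ∃ t', t' ≤ t ∧ aAcc δ s F n t') := by
  have hsome : ∀ t, ∃ x : Q × Bool, cfl δ F s n t 1 = some x := by
    intro t
    rw [← Option.ne_none_iff_exists']
    intro h
    rw [cfl_none] at h
    exact h ⟨le_refl _, by exact_mod_cast hn⟩
  have hacc : ∀ (t : ℕ) (x : Q × Bool), cfl δ F s n t 1 = some x → (aAcc δ s F n t ↔ x.1 ∈ F) := by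
    intro t x hx
    have h1 := cfl_fst δ F s n t 1
    rw [Nat.cast_one, hx] at h1
    unfold aAcc
    rw [← h1]
    constructor
    · rintro ⟨q, hq, h⟩
      have : x.1 = q := by simpa using h
      rwa [this]
    · intro h
      exact ⟨x.1, h, rfl⟩
  induction t with
  | zero =>
    obtain ⟨x, hx⟩ := hsome 0
    refine ⟨x, hx, ?_⟩
    have h1 : x = (s, by classical exact decide (s ∈ F)) := by
      have h2 := hx
      unfold cfl at h2
      rw [if_pos ⟨le_refl _, by exact_mod_cast hn⟩] at h2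
      exact (Option.some.inj h2).symm
    constructor
    · intro h
      refine ⟨0, le_refl _, (hacc 0 x hx).2 ?_⟩
      rw [h1] at h ⊢
      simpa using h
    · rintro ⟨t', ht', h⟩
      obtain rfl : t' = 0 := by omega
      have h3 := (hacc 0 x hx).1 h
      rw [h1] at h3 ⊢
      simpa using h3
  | succ t ih =>
    obtain ⟨x, hx, hfl⟩ := ih
    obtain ⟨y, hy⟩ := hsome (t + 1)
    refine ⟨y, hy, ?_⟩
    have h2 : y.2 = true ↔ (x.2 = true ∨ y.1 ∈ F) := by
      have h3 := hy
      unfold cfl stp at h3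
      rw [hx] at h3
      have h4 := Option.some.inj h3
      rw [← h4]
      simp
    rw [h2, hfl, ← hacc (t + 1) y hy]
    constructor
    · rintro (⟨t', ht', h⟩ | h)
      · exact ⟨t', by omega, h⟩
      · exact ⟨t + 1, le_refl _, h⟩
    · rintro ⟨t', ht', h⟩
      rcases Nat.lt_or_ge t' (t + 1) with h5 | h5
      · exact Or.inl ⟨t', by omega, h⟩
      · obtain rfl : t' = t + 1 := by omega
        exact Or.inr h

end

theorem code : CodeStatement := by
  classical
  intro Q _ s δ F
  obtain ⟨m, ⟨e⟩⟩ := Finite.exists_equiv_fin Q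
  let ι : Q → ℕ := fun q => (e q : ℕ)
  have hι : Function.Injective ι := fun a b h => e.injective (Fin.ext h)
  have hm : ∀ q, ι q < m := fun q => (e q).2
  have hlt : ∀ x : Option (Q × Bool), enc ι x < 2 ^ (m + 2) := by
    intro x
    have h1 : m < 2 ^ m := Nat.lt_two_pow_self
    have h2 : 2 ^ (m + 2) = 4 * 2 ^ m := by rw [pow_add]; ring
    cases x with
    | none => simp only [enc]; positivity
    | some x =>
      obtain ⟨q, fl⟩ := x
      have h3 : fl.toNat ≤ 1 := Bool.toNat_le fl
      have h4 := hm q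
      simp only [enc]
      omega
  let D : ℕ → Option (Q × Bool) := Function.invFun (enc ι)
  have hD : ∀ x, D (enc ι x) = x := Function.leftInverse_invFun (enc_inj hι)
  let f : ℕ → ℕ := fun i => enc ι (stp δ F (D (i / 2 ^ (m + 2) / 2 ^ (m + 2)))
    (D (i / 2 ^ (m + 2) % 2 ^ (m + 2))) (D (i % 2 ^ (m + 2))))
  refine ⟨m + 2, ∑ i ∈ range ((2 ^ (m + 2)) ^ 3), f i * (2 ^ (m + 2)) ^ i,
    enc ι (some (s, decide (s ∈ F))), by omega, hlt _, ?_⟩
  intro n hn
  refine ⟨fun t z => enc ι (cfl δ F s n t z), fun t z => hlt _, ?_, ?_, ?_⟩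
  · intro t z
    have key : ∀ l c r : Option (Q × Bool),
        rule (2 ^ (m + 2)) (∑ i ∈ range ((2 ^ (m + 2)) ^ 3), f i * (2 ^ (m + 2)) ^ i)
          (enc ι l) (enc ι c) (enc ι r) = enc ι (stp δ F l c r) := by
      intro l c r
      have hl := hlt l
      have hc := hlt c
      have hr := hlt r
      unfold rule
      have hidx : (enc ι l * 2 ^ (m + 2) + enc ι c) * 2 ^ (m + 2) + enc ι r <
          (2 ^ (m + 2)) ^ 3 := by
        have h1 : enc ι l + 1 ≤ 2 ^ (m + 2) := hl
        generalize 2 ^ (m + 2) = K at *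
        have h2 : enc ι l * K + enc ι c + 1 ≤ K * K := by nlinarith
        calc (enc ι l * K + enc ι c) * K + enc ι r
            < (enc ι l * K + enc ι c) * K + K := by omega
          _ = (enc ι l * K + enc ι c + 1) * K := by ring
          _ ≤ (K * K) * K := Nat.mul_le_mul_right _ h2
          _ = K ^ 3 := by ring
      rw [dig_sum _ _ f (fun i => hlt _) _ hidx]
      have hpos : 0 < 2 ^ (m + 2) := by positivity
      have h1 : ((enc ι l * 2 ^ (m + 2) + enc ι c) * 2 ^ (m + 2) + enc ι r) / 2 ^ (m + 2) =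
          enc ι l * 2 ^ (m + 2) + enc ι c := by
        rw [Nat.mul_comm _ (2 ^ (m + 2)), Nat.mul_add_div hpos, Nat.div_eq_of_lt hr, Nat.add_zero]
      have h2 : ((enc ι l * 2 ^ (m + 2) + enc ι c) * 2 ^ (m + 2) + enc ι r) % 2 ^ (m + 2) =
          enc ι r := by
        rw [Nat.mul_comm _ (2 ^ (m + 2)), Nat.mul_add_mod, Nat.mod_eq_of_lt hr]
      have h3 : (enc ι l * 2 ^ (m + 2) + enc ι c) / 2 ^ (m + 2) = enc ι l := by
        rw [Nat.mul_comm _ (2 ^ (m + 2)), Nat.mul_add_div hpos, Nat.div_eq_of_lt hc, Nat.add_zero]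
      have h4 : (enc ι l * 2 ^ (m + 2) + enc ι c) % 2 ^ (m + 2) = enc ι c := by
        rw [Nat.mul_comm _ (2 ^ (m + 2)), Nat.mul_add_mod, Nat.mod_eq_of_lt hc]
      show enc ι (stp δ F (D (((enc ι l * 2 ^ (m + 2) + enc ι c) * 2 ^ (m + 2) + enc ι r) /
        2 ^ (m + 2) / 2 ^ (m + 2))) (D (((enc ι l * 2 ^ (m + 2) + enc ι c) * 2 ^ (m + 2) +
        enc ι r) / 2 ^ (m + 2) % 2 ^ (m + 2))) (D (((enc ι l * 2 ^ (m + 2) + enc ι c) *
        2 ^ (m + 2) + enc ι r) % 2 ^ (m + 2)))) = _
      rw [h1, h2, h3, h4, hD, hD, hD]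
    exact (key _ _ _).symm
  · intro z
    show enc ι (cfl δ F s n 0 z) = _
    unfold cfl
    by_cases h : 1 ≤ z ∧ z ≤ n
    · rw [if_pos h, if_pos h]
    · rw [if_neg h, if_neg h]; rfl
  · intro t
    obtain ⟨⟨q, fl⟩, hx, hfl⟩ := cfl_flag δ F s n t hn
    show enc ι (cfl δ F s n t 1) % 2 = 1 ↔ _
    rw [hx, ← hfl]
    simp only [enc]
    cases fl
    · simp
    · simp only [Bool.toNat_true, iff_true]
      omega

end Pool.Agent.Lib.MP_2eed13_lc.LCA.H27
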