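import Pool.Agent.Lib.MP_2eed13_lc.LCA.Base

/-!
# TIME: the time-indexed form runs the procedure
-/

set_option autoImplicit false

namespace Pool.Agent.Lib.MP_2eed13_lc.LCA.H27

theorem runTo_add {X : Type} (f : ℕ → X → X) (a n : ℕ) (x : X) :
    runTo f (a + n) x = runTo (fun t => f (a + t)) n (runTo f a x) := by
  induction n with
  | zero => rfl
  | succ n ih =>
    show f (a + n) (runTo f (a + n) x) = f (a + n) (runTo (fun t => f (a + t)) n (runTo f a x))
    rw [ih]

theorem runTo_congr {X : Type} (f g : ℕ → X → X) (n : ℕ) (x : X) (h : ∀ t < n, ∀ y, f t y = g t y) :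
    runTo f n x = runTo g n x := by
  induction n with
  | zero => rfl
  | succ n ih =>
    show f n (runTo f n x) = g n (runTo g n x)
    rw [ih (fun t ht => h t (by omega)), h n (by omega)]

theorem runTo_first {X : Type} (f : ℕ → X → X) (n : ℕ) (x : X) (hn : 1 ≤ n)
    (h : ∀ t, t ≠ 0 → t < n → ∀ y, f t y = y) : runTo f n x = f 0 x := by
  induction n with
  | zero => omega
  | succ n ih =>
    rcases Nat.eq_zero_or_pos n with rfl | hn'
    · rfl
    · show f n (runTo f n x) = f 0 x
      rw [h n (by omega) (by omega), ih hn' (fun t h0 ht => h t h0 (by omega))]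

/-- the value of a call slot -/
theorem slot_call (p b : ℕ) (G : ℕ → ℕ) (i r s d : ℕ) (hd : isCall d) :
    ∃ i' r' s' : ℕ, ∀ (sub : ℕ → ℕ → ℕ → (ℕ → ℕ → ZMod p) → (ℕ → ℕ → ZMod p))
      (R : ℕ → ℕ → ZMod p), slot p b G sub i r s d R = sub i' r' s' R := by
  unfold isCall at hd
  by_cases h : d % 9 ≤ 3
  · refine ⟨i + d % 9 - 2, regOf r (d % 9 - 1), 0, fun sub R => ?_⟩
    unfold slot
    rw [if_neg (by omega), if_pos h]
  · refine ⟨i + d % 9 - 6, regOf r (d % 9 - 5), 1, fun sub R => ?_⟩
    unfold slot
    rw [if_neg (by omega), if_neg h, if_neg (by omega), if_pos (by omega)]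

/-- an operation slot does not depend on the children -/
theorem slot_op (p b : ℕ) (G : ℕ → ℕ) (i r s d : ℕ) (hd : ¬ isCall d)
    (sub sub' : ℕ → ℕ → ℕ → (ℕ → ℕ → ZMod p) → (ℕ → ℕ → ZMod p)) (R : ℕ → ℕ → ZMod p) :
    slot p b G sub i r s d R = slot p b G sub' i r s d R := by
  unfold isCall at hd
  unfold slot
  by_cases h0 : d % 9 = 0
  · rw [if_pos h0, if_pos h0]
  · have h3 : ¬ d % 9 ≤ 3 := by omega
    rw [if_neg h0, if_neg h0, if_neg h3, if_neg h3]
    by_cases h4 : d % 9 = 4
    · rw [if_pos h4, if_pos h4]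
    · have h7 : ¬ d % 9 ≤ 7 := by omega
      rw [if_neg h4, if_neg h4, if_neg h7, if_neg h7]

theorem time : TimeStatement := by
  intro p b hp G L j
  induction j with
  | zero => intro i r s R; rfl
  | succ j ih =>
    intro i r s R
    have hK : 1 ≤ (9 * (p - 1)) ^ j := Nat.one_le_pow _ _ (by omega)
    have key : ∀ N : ℕ, runTo (fun t => actA p b G L (j + 1) t i r s) ((9 * (p - 1)) ^ j * N) R =
        runTo (fun d => slot p b G (PA p b G L j) i r s d) N R := by
      intro N
      induction N with
      | zero => rfl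
      | succ N ihN =>
        rw [Nat.mul_succ, runTo_add, ihN]
        show _ = slot p b G (PA p b G L j) i r s N
          (runTo (fun d => slot p b G (PA p b G L j) i r s d) N R)
        generalize runTo (fun d => slot p b G (PA p b G L j) i r s d) N R = S
        have hF : ∀ u < (9 * (p - 1)) ^ j, ∀ y : ℕ → ℕ → ZMod p,
            actA p b G L (j + 1) ((9 * (p - 1)) ^ j * N + u) i r s y =
              if isCall N ∨ u = 0 then
                slot p b G (fun i' r' s' => actA p b G L j u i' r' s') i r s N y
              else y := by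
          intro u hu y
          have h1 : ((9 * (p - 1)) ^ j * N + u) / (9 * (p - 1)) ^ j = N := by
            rw [Nat.mul_add_div (by omega), Nat.div_eq_of_lt hu, Nat.add_zero]
          have h2 : ((9 * (p - 1)) ^ j * N + u) % (9 * (p - 1)) ^ j = u := by
            rw [Nat.mul_add_mod, Nat.mod_eq_of_lt hu]
          simp only [actA, h1, h2]
        rw [runTo_congr _ _ _ _ hF]
        by_cases hc : isCall N
        · obtain ⟨i', r', s', h⟩ := slot_call p b G i r s N hc
          rw [h, ← ih i' r' s' S]
          refine runTo_congr _ _ _ _ fun u _ y => ?_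
          rw [if_pos (Or.inl hc), h]
        · rw [runTo_first _ _ _ hK]
          · rw [if_pos (Or.inr rfl)]
            exact slot_op p b G i r s N hc _ _ S
          · intro u hu _ y
            rw [if_neg (by tauto)]
    rw [pow_succ, key]
    rfl

end Pool.Agent.Lib.MP_2eed13_lc.LCA.H27
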